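import Mathlib

open Filter Topology

namespace Pool.Agent.Results.MP_6f1842_lc.KazhdanBorel

universe u

/-- A set `Q` of integers is a Kazhdan set if there is `ε > 0` such that every unitary operator `U`
on a complex Hilbert space `H` having a unit vector `x` with `sup_{n ∈ Q} ‖U ^ n x - x‖ < ε`
has a nonzero fixed vector. -/
def IsKazhdan (Q : Set ℤ) : Prop :=
  ∃ ε : ℝ, 0 < ε ∧ ∀ (H : Type u) [NormedAddCommGroup H] [InnerProductSpace ℂ H]
    [CompleteSpace H] (U : H ≃ₗᵢ[ℂ] H),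
    (∃ x : H, ‖x‖ = 1 ∧ ⨆ n : Q, ‖(U ^ (n : ℤ)) x - x‖ < ε) → ∃ y : H, y ≠ 0 ∧ U y = y

/-- A set of integers is generating if the subgroup it generates is all of `ℤ`. -/
def IsGenerating (Q : Set ℤ) : Prop := AddSubgroup.closure Q = ⊤

lemma exists_ultralim (f : ℕ → ℂ) (C : ℝ) (h : ∀ n, ‖f n‖ ≤ C) :
    ∃ l : ℂ, Tendsto f (hyperfilter ℕ : Filter ℕ) (𝓝 l) := by
  have hc : IsCompact (Metric.closedBall (0 : ℂ) C) := isCompact_closedBall 0 C
  have hle : ((hyperfilter ℕ).map f : Filter ℂ) ≤ 𝓟 (Metric.closedBall (0 : ℂ) C) := by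
    rw [Filter.le_principal_iff]
    change f ⁻¹' (Metric.closedBall (0 : ℂ) C) ∈ (hyperfilter ℕ : Filter ℕ)
    refine Filter.univ_mem' (fun n => ?_)
    simpa using h n
  obtain ⟨l, _, hl⟩ := hc.ultrafilter_le_nhds _ hle
  exact ⟨l, hl⟩

section Limit

variable {E : Type u} [AddCommGroup E] [Module ℂ E]
  {G : ℕ → Type u} [∀ n, NormedAddCommGroup (G n)] [∀ n, InnerProductSpace ℂ (G n)]
  (T : ∀ n, E →ₗ[ℂ] G n)

/-- Ultralimit of the inner products of the images. -/
noncomputable def limInner (hT : ∀ v, ∃ C : ℝ, ∀ n, ‖T n v‖ ≤ C) (v w : E) : ℂ :=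
  Classical.choose (exists_ultralim (fun n => inner ℂ (T n v) (T n w))
    (Classical.choose (hT v) * Classical.choose (hT w)) (fun n => by
      refine (norm_inner_le_norm _ _).trans ?_
      have h1 := Classical.choose_spec (hT v) n
      have h2 := Classical.choose_spec (hT w) n
      exact mul_le_mul h1 h2 (norm_nonneg _) ((norm_nonneg _).trans h1)))

lemma limInner_spec (hT : ∀ v, ∃ C : ℝ, ∀ n, ‖T n v‖ ≤ C) (v w : E) :
    Tendsto (fun n => inner ℂ (T n v) (T n w)) (hyperfilter ℕ : Filter ℕ)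
      (𝓝 (limInner T hT v w)) :=
  Classical.choose_spec (exists_ultralim (fun n => inner ℂ (T n v) (T n w))
    (Classical.choose (hT v) * Classical.choose (hT w)) (fun n => by
      refine (norm_inner_le_norm _ _).trans ?_
      have h1 := Classical.choose_spec (hT v) n
      have h2 := Classical.choose_spec (hT w) n
      exact mul_le_mul h1 h2 (norm_nonneg _) ((norm_nonneg _).trans h1)))

/-- The pre-inner product given by an ultralimit. -/
@[reducible]
noncomputable def limCore (hT : ∀ v, ∃ C : ℝ, ∀ n, ‖T n v‖ ≤ C) :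
    PreInnerProductSpace.Core ℂ E where
  inner := limInner T hT
  conj_inner_symm x y := by
    refine tendsto_nhds_unique ?_ (limInner_spec T hT x y)
    have := (Complex.continuous_conj.tendsto _).comp (limInner_spec T hT y x)
    refine this.congr (fun n => ?_)
    simp
  re_inner_nonneg x := by
    have := (Complex.continuous_re.tendsto _).comp (limInner_spec T hT x x)
    refine ge_of_tendsto' this (fun n => ?_)
    simpa using inner_self_nonneg (𝕜 := ℂ) (x := T n x)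
  add_left x y z := by
    refine tendsto_nhds_unique (limInner_spec T hT (x + y) z) ?_
    refine ((limInner_spec T hT x z).add (limInner_spec T hT y z)).congr (fun n => ?_)
    simp
  smul_left x y r := by
    refine tendsto_nhds_unique (limInner_spec T hT (r • x) y) ?_
    refine ((limInner_spec T hT x y).const_mul ((starRingEnd ℂ) r)).congr (fun n => ?_)
    simp [mul_comm]

/-- The ultralimit construction: a Hilbert space `H`, a linear map `J : E → H` such that
`‖T n v‖` tends to `‖J v‖` along the ultrafilter, and an extension of `S` to a unitary `U`. -/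
lemma exists_limit (hT : ∀ v, ∃ C : ℝ, ∀ n, ‖T n v‖ ≤ C) (S : E ≃ₗ[ℂ] E)
    (hS : ∀ n v, ‖T n (S v)‖ = ‖T n v‖) :
    ∃ (H : Type u) (_ : NormedAddCommGroup H) (_ : InnerProductSpace ℂ H) (_ : CompleteSpace H)
      (J : E →ₗ[ℂ] H) (U : H ≃ₗᵢ[ℂ] H),
      (∀ v, Tendsto (fun n => ‖T n v‖) (hyperfilter ℕ : Filter ℕ) (𝓝 ‖J v‖)) ∧
      ∀ v, U (J v) = J (S v) := by
  let c : PreInnerProductSpace.Core ℂ E := limCore T hT
  let : SeminormedAddCommGroup E :=
    @InnerProductSpace.Core.toSeminormedAddCommGroup ℂ E _ _ _ c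
  let : InnerProductSpace ℂ E := InnerProductSpace.ofCore c
  have hnorm : ∀ v : E, Tendsto (fun n => ‖T n v‖) (hyperfilter ℕ : Filter ℕ) (𝓝 ‖v‖) := by
    intro v
    have h1 := (Complex.continuous_re.tendsto _).comp (limInner_spec T hT v v)
    have h2 := (Real.continuous_sqrt.tendsto _).comp h1
    refine (h2.congr (fun n => ?_))
    have h3 : (Complex.re (inner ℂ (T n v) (T n v))) = ‖T n v‖ ^ 2 := by
      simpa using (inner_self_eq_norm_sq (𝕜 := ℂ) (T n v))
    simp only [Function.comp]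
    rw [h3, Real.sqrt_sq (norm_nonneg _)]
  have hSn : ∀ v : E, ‖S v‖ = ‖v‖ := by
    intro v
    refine tendsto_nhds_unique (hnorm (S v)) ?_
    simpa [hS] using hnorm v
  let e : E →ₗ[ℂ] UniformSpace.Completion E :=
    (UniformSpace.Completion.toComplₗᵢ (𝕜 := ℂ) (E := E)).toLinearMap
  have hd : DenseRange e := UniformSpace.Completion.denseRange_coe
  have hn : ∀ v, ‖e (S v)‖ = ‖e v‖ := by
    intro v
    change ‖((S v : E) : UniformSpace.Completion E)‖ = ‖((v : E) : UniformSpace.Completion E)‖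
    rw [UniformSpace.Completion.norm_coe, UniformSpace.Completion.norm_coe]
    exact hSn v
  refine ⟨UniformSpace.Completion E, inferInstance, inferInstance, inferInstance, e,
    S.extendOfIsometry e e hd hd hn, ?_, ?_⟩
  · intro v
    have : ‖e v‖ = ‖v‖ := UniformSpace.Completion.norm_coe v
    rw [this]
    exact hnorm v
  · intro v
    exact LinearEquiv.extendOfIsometry_eq S e e hd hd hn v

end Limit

/-- Cesàro average of the orbit of `x` under a unitary operator. -/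
noncomputable def avg {H : Type u} [NormedAddCommGroup H] [InnerProductSpace ℂ H]
    (U : H ≃ₗᵢ[ℂ] H) (m : ℕ) (x : H) : H :=
  ((m + 1 : ℕ) : ℂ)⁻¹ • ∑ i ∈ Finset.range (m + 1), (U ^ (i : ℤ)) x

/-- The approximation property: `AP k m N Q`. -/
def AP (k m N : ℕ) (Q : Set ℤ) : Prop :=
  ∃ (H : Type u) (_ : NormedAddCommGroup H) (_ : InnerProductSpace ℂ H) (_ : CompleteSpace H)
    (U : H ≃ₗᵢ[ℂ] H) (x : H), ‖x‖ = 1 ∧
      (∀ n ∈ Q, n.natAbs ≤ N → ‖(U ^ n) x - x‖ ≤ 1 / ((k : ℝ) + 1)) ∧ ‖avg U m x‖ ≤ 1 / 2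

/-- The limit version. -/
lemma limit_exists (k m : ℕ) (Q : Set ℤ) (h : ∀ N, AP.{u} k m N Q) :
    ∃ (H : Type u) (_ : NormedAddCommGroup H) (_ : InnerProductSpace ℂ H) (_ : CompleteSpace H)
    (U : H ≃ₗᵢ[ℂ] H) (x : H), ‖x‖ = 1 ∧
      (∀ n ∈ Q, ‖(U ^ n) x - x‖ ≤ 1 / ((k : ℝ) + 1)) ∧ ‖avg U m x‖ ≤ 1 / 2 := by
  choose G i1 i2 i3 V x hx hQ hA using h
  let T : ∀ n, (ULift.{u} ℤ →₀ ℂ) →ₗ[ℂ] G n := fun n =>
    Finsupp.linearCombination ℂ (fun j : ULift.{u} ℤ => (V n ^ j.down) (x n))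
  let e : ULift.{u} ℤ ≃ ULift.{u} ℤ :=
    { toFun := fun j => ⟨j.down + 1⟩
      invFun := fun j => ⟨j.down - 1⟩
      left_inv := fun j => by simp
      right_inv := fun j => by simp }
  let S : (ULift.{u} ℤ →₀ ℂ) ≃ₗ[ℂ] (ULift.{u} ℤ →₀ ℂ) := Finsupp.domLCongr e
  have hT : ∀ v, ∃ C : ℝ, ∀ n, ‖T n v‖ ≤ C := by
    intro v
    refine ⟨∑ j ∈ v.support, ‖v j‖, fun n => ?_⟩
    simp only [T, Finsupp.linearCombination_apply, Finsupp.sum]
    refine (norm_sum_le _ _).trans (Finset.sum_le_sum (fun j _ => ?_))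
    rw [norm_smul, LinearIsometryEquiv.norm_map, hx, mul_one]
  have hTS : ∀ n v, T n (S v) = V n (T n v) := by
    intro n v
    have : (T n) ∘ₗ S.toLinearMap = (V n).toLinearEquiv.toLinearMap ∘ₗ (T n) := by
      ext j
      simp only [LinearMap.comp_apply, T, S, Finsupp.lsingle_apply, LinearEquiv.coe_coe,
        Finsupp.domLCongr_single, Finsupp.linearCombination_single, one_smul]
      change (V n ^ (j.down + 1)) (x n) = (V n) ((V n ^ j.down) (x n))
      rw [add_comm, zpow_add, zpow_one]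
      rfl
    exact LinearMap.congr_fun this v
  have hS : ∀ n v, ‖T n (S v)‖ = ‖T n v‖ := by
    intro n v
    rw [hTS, LinearIsometryEquiv.norm_map]
  obtain ⟨H, j1, j2, j3, J, U, hJ, hU⟩ := exists_limit T hT S hS
  have hUS : ∀ n : ℤ, U (J (Finsupp.single ⟨n⟩ 1)) = J (Finsupp.single ⟨n + 1⟩ 1) := by
    intro n
    rw [hU]
    simp only [S, Finsupp.domLCongr_single]
    rfl
  have hpow : ∀ n : ℤ, (U ^ n) (J (Finsupp.single ⟨0⟩ 1)) = J (Finsupp.single ⟨n⟩ 1) := by
    intro n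
    induction n using Int.induction_on with
    | zero => simp
    | succ i ih =>
      rw [add_comm, zpow_add, zpow_one]
      change U ((U ^ (i : ℤ)) _) = _
      rw [ih, hUS, add_comm]
    | pred i ih =>
      apply U.injective
      rw [hUS]
      have : U ((U ^ (-(i : ℤ) - 1)) (J (Finsupp.single ⟨0⟩ 1)))
          = (U ^ (-(i : ℤ))) (J (Finsupp.single ⟨0⟩ 1)) := by
        change (U * (U ^ (-(i : ℤ) - 1))) _ = _
        congr 1
        rw [← zpow_one_add]
        congr 1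
        ring
      rw [this, ih]
      congr 3
      ring
  have hT1 : ∀ (N : ℕ) (n : ℤ), T N (Finsupp.single ⟨n⟩ 1) = (V N ^ n) (x N) := by
    intro N n
    simp [T]
  refine ⟨H, j1, j2, j3, U, J (Finsupp.single ⟨0⟩ 1), ?_, ?_, ?_⟩
  · refine tendsto_nhds_unique (hJ _) ?_
    simp only [hT1]
    simp [hx]
  · intro n hn
    rw [hpow, ← map_sub]
    refine le_of_tendsto (hJ _) ?_
    have h1 : ∀ᶠ N in (hyperfilter ℕ : Filter ℕ), n.natAbs ≤ N := by
      apply Filter.hyperfilter_le_cofinite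
      rw [Nat.cofinite_eq_atTop]
      exact eventually_ge_atTop _
    filter_upwards [h1] with N hN
    rw [map_sub, hT1, hT1]
    simpa using hQ N n hn hN
  · have h1 : avg U m (J (Finsupp.single ⟨0⟩ 1)) =
        J (((m + 1 : ℕ) : ℂ)⁻¹ • ∑ i ∈ Finset.range (m + 1), Finsupp.single ⟨(i : ℤ)⟩ 1) := by
      simp only [avg, hpow, map_smul, map_sum]
    rw [h1]
    refine le_of_tendsto (hJ _) (Eventually.of_forall (fun N => ?_))
    have h2 : T N (((m + 1 : ℕ) : ℂ)⁻¹ • ∑ i ∈ Finset.range (m + 1), Finsupp.single ⟨(i : ℤ)⟩ 1)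
        = avg (V N) m (x N) := by
      simp only [avg, map_smul, map_sum, hT1]
    rw [h2]
    exact hA N

lemma fixed_zpow {H : Type u} [NormedAddCommGroup H] [InnerProductSpace ℂ H]
    (U : H ≃ₗᵢ[ℂ] H) (p : H) (hp : U p = p) (n : ℤ) : (U ^ n) p = p := by
  induction n using Int.induction_on with
  | zero => simp
  | succ i ih =>
    rw [add_comm, zpow_add, zpow_one]
    change U ((U ^ (i : ℤ)) p) = p
    rw [ih, hp]
  | pred i ih =>
    apply U.injective
    have : U ((U ^ (-(i : ℤ) - 1)) p) = (U ^ (-(i : ℤ))) p := by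
      change (U * (U ^ (-(i : ℤ) - 1))) p = _
      congr 1
      rw [← zpow_one_add]
      congr 1
      ring
    rw [this, ih, hp]

/-- Removing the fixed vectors. -/
lemma remove_fixed {H : Type u} [NormedAddCommGroup H] [InnerProductSpace ℂ H] [CompleteSpace H]
    (U : H ≃ₗᵢ[ℂ] H) (x : H) (hx : ‖x‖ = 1) (m : ℕ) (hA : ‖avg U m x‖ ≤ 1 / 2) :
    ∃ (G : Type u) (_ : NormedAddCommGroup G) (_ : InnerProductSpace ℂ G) (_ : CompleteSpace G)
    (V : G ≃ₗᵢ[ℂ] G) (y : G), ‖y‖ = 1 ∧ (∀ n : ℤ, ‖(V ^ n) y - y‖ ≤ 2 * ‖(U ^ n) x - x‖) ∧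
      ∀ z : G, V z = z → z = 0 := by
  let W : H →L[ℂ] H := (U.toContinuousLinearEquiv : H →L[ℂ] H)
  let K : Submodule ℂ H := W.eqLocus (1 : H →L[ℂ] H)
  have hK : ∀ z : H, z ∈ K ↔ U z = z := by
    intro z
    rfl
  have hU1 : ∀ z ∈ Kᗮ, U z ∈ Kᗮ := by
    intro z hz
    rw [Submodule.mem_orthogonal] at hz ⊢
    intro w hw
    have h1 : U w = w := (hK w).1 hw
    rw [← h1, LinearIsometryEquiv.inner_map_map]
    exact hz w hw
  have hU2 : ∀ z ∈ Kᗮ, U.symm z ∈ Kᗮ := by
    intro z hz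
    rw [Submodule.mem_orthogonal] at hz ⊢
    intro w hw
    have h1 : U w = w := (hK w).1 hw
    rw [← LinearIsometryEquiv.inner_map_map U, h1, LinearIsometryEquiv.apply_symm_apply]
    exact hz w hw
  let V : Kᗮ ≃ₗᵢ[ℂ] Kᗮ :=
    { toFun := fun z => ⟨U z, hU1 z z.2⟩
      invFun := fun z => ⟨U.symm z, hU2 z z.2⟩
      left_inv := fun z => by ext; simp
      right_inv := fun z => by ext; simp
      map_add' := fun a b => by ext; simp
      map_smul' := fun a b => by ext; simp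
      norm_map' := fun z => by
        change ‖(⟨U z, hU1 z z.2⟩ : Kᗮ)‖ = ‖z‖
        rw [Submodule.coe_norm, Submodule.coe_norm]
        simp }
  have hVp : ∀ (n : ℤ) (z : Kᗮ), (((V ^ n) z : Kᗮ) : H) = (U ^ n) (z : H) := by
    intro n
    induction n using Int.induction_on with
    | zero => intro z; simp
    | succ i ih =>
      intro z
      rw [add_comm, zpow_add, zpow_one, zpow_add, zpow_one]
      change ((V ((V ^ (i : ℤ)) z) : Kᗮ) : H) = U ((U ^ (i : ℤ)) z)
      change U ((((V ^ (i : ℤ)) z : Kᗮ) : H)) = U ((U ^ (i : ℤ)) z)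
      rw [ih]
    | pred i ih =>
      intro z
      apply U.injective
      have h1 : U ((U ^ (-(i : ℤ) - 1)) (z : H)) = (U ^ (-(i : ℤ))) (z : H) := by
        change (U * (U ^ (-(i : ℤ) - 1))) (z : H) = _
        congr 1
        rw [← zpow_one_add]
        congr 1
        ring
      have h2 : V ((V ^ (-(i : ℤ) - 1)) z) = (V ^ (-(i : ℤ))) z := by
        change (V * (V ^ (-(i : ℤ) - 1))) z = _
        congr 1
        rw [← zpow_one_add]
        congr 1
        ring
      rw [h1, ← ih, ← h2]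
      rfl
  -- decomposition of x
  let p : H := K.starProjection x
  have hp : U p = p := (hK p).1 (Submodule.starProjection_apply_mem K x)
  have hq : x - p ∈ Kᗮ := Submodule.sub_starProjection_mem_orthogonal x
  have hpp : ‖p‖ ≤ 1 / 2 := by
    have h1 : ∀ i : ℕ, inner ℂ p ((U ^ (i : ℤ)) x) = (‖p‖ ^ 2 : ℂ) := by
      intro i
      have h2 : inner ℂ p ((U ^ (i : ℤ)) x) = inner ℂ ((U ^ (i : ℤ)) p) ((U ^ (i : ℤ)) x) := by
        rw [fixed_zpow U p hp]
      rw [h2, LinearIsometryEquiv.inner_map_map]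
      have h3 : inner ℂ p (x - p) = 0 :=
        (Submodule.mem_orthogonal K _).1 hq p ((hK p).2 hp)
      rw [inner_sub_right, sub_eq_zero] at h3
      rw [h3]
      exact inner_self_eq_norm_sq_to_K p
    have h4 : inner ℂ p (avg U m x) = (‖p‖ ^ 2 : ℂ) := by
      rw [avg, inner_smul_right, inner_sum]
      rw [Finset.sum_congr rfl (fun i _ => h1 i)]
      rw [Finset.sum_const, Finset.card_range, nsmul_eq_mul, ← mul_assoc, inv_mul_cancel₀, one_mul]
      exact Nat.cast_ne_zero.2 (Nat.succ_ne_zero m)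
    have h5 : ‖p‖ ^ 2 ≤ ‖p‖ * ‖avg U m x‖ := by
      have := norm_inner_le_norm (𝕜 := ℂ) p (avg U m x)
      rw [h4] at this
      simpa using this
    by_cases h0 : ‖p‖ = 0
    · rw [h0]; norm_num
    · have hpos : 0 < ‖p‖ := lt_of_le_of_ne (norm_nonneg _) (Ne.symm h0)
      have : ‖p‖ ≤ ‖avg U m x‖ := by
        nlinarith
      exact this.trans hA
  have hqn : 1 / 2 ≤ ‖x - p‖ := by
    have := norm_sub_norm_le x p
    rw [hx] at this
    linarith
  have hqpos : 0 < ‖x - p‖ := by linarith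
  let y0 : Kᗮ := ⟨x - p, hq⟩
  have hy0 : ‖y0‖ = ‖x - p‖ := rfl
  refine ⟨Kᗮ, inferInstance, inferInstance, inferInstance, V,
    (((‖x - p‖)⁻¹ : ℝ) : ℂ) • y0, ?_, ?_, ?_⟩
  · rw [norm_smul, hy0]
    simp only [Complex.norm_real, norm_inv, norm_norm]
    exact inv_mul_cancel₀ hqpos.ne'
  · intro n
    rw [map_smul, ← smul_sub, norm_smul]
    have h1 : ‖(V ^ n) y0 - y0‖ = ‖(U ^ n) x - x‖ := by
      rw [Submodule.coe_norm, Submodule.coe_sub, hVp]
      change ‖(U ^ n) (x - p) - (x - p)‖ = _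
      rw [map_sub, fixed_zpow U p hp]
      congr 1
      abel
    rw [h1]
    refine mul_le_mul_of_nonneg_right ?_ (norm_nonneg _)
    simp only [Complex.norm_real, norm_inv, norm_norm]
    rw [inv_le_comm₀ hqpos (by norm_num)]
    linarith
  · intro z hz
    have h1 : (z : H) ∈ K := (hK _).2 (congrArg Subtype.val hz)
    have h2 : (z : H) ∈ K ⊓ Kᗮ := ⟨h1, z.2⟩
    rw [Submodule.inf_orthogonal_eq_bot] at h2
    ext
    simpa using h2

/-- Characterisation of non-Kazhdan sets. -/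
theorem not_isKazhdan_iff (Q : Set ℤ) :
    ¬ IsKazhdan.{u} Q ↔ ∀ k : ℕ, ∃ m : ℕ, ∀ N : ℕ, AP.{u} k m N Q := by
  constructor
  · intro h k
    unfold IsKazhdan at h
    push Not at h
    obtain ⟨H, i1, i2, i3, U, ⟨x, hx, hsup⟩, hfix⟩ := h (1 / ((k : ℝ) + 1)) (by positivity)
    have hbdd : BddAbove (Set.range (fun n : Q => ‖(U ^ (n : ℤ)) x - x‖)) := by
      refine ⟨2, ?_⟩
      rintro _ ⟨n, rfl⟩
      refine (norm_sub_le _ _).trans ?_
      rw [LinearIsometryEquiv.norm_map, hx]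
      norm_num
    let W : H →L[ℂ] H := (U.toContinuousLinearEquiv : H →L[ℂ] H)
    have hW : ‖W‖ ≤ 1 := by
      refine ContinuousLinearMap.opNorm_le_bound _ zero_le_one (fun z => ?_)
      rw [one_mul]
      exact (U.norm_map z).le
    have herg := W.tendsto_birkhoffAverage_orthogonalProjection hW x
    have hK : W.eqLocus (1 : H →L[ℂ] H) = ⊥ := by
      rw [Submodule.eq_bot_iff]
      intro z hz
      by_contra hne
      exact hfix z hne hz
    have h0 : ((((W.eqLocus (1 : H →L[ℂ] H)).orthogonalProjectionOnto x :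
        W.eqLocus (1 : H →L[ℂ] H))) : H) = 0 := by
      exact (Submodule.eq_bot_iff _).1 hK _
        ((W.eqLocus (1 : H →L[ℂ] H)).orthogonalProjectionOnto x).2
    rw [h0] at herg
    have hev : ∀ᶠ n in atTop, ‖birkhoffAverage ℂ W _root_.id n x‖ < 1 / 2 := by
      have := (continuous_norm.tendsto (0 : H)).comp herg
      rw [norm_zero] at this
      exact this.eventually_lt_const (by norm_num)
    obtain ⟨m, hm⟩ := (eventually_atTop.1 hev)
    refine ⟨m, fun N => ⟨H, i1, i2, i3, U, x, hx, fun n hn _ => ?_, ?_⟩⟩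
    · exact (le_ciSup hbdd ⟨n, hn⟩).trans hsup.le
    · have h1 := hm (m + 1) (Nat.le_succ m)
      have h2 : avg U m x = birkhoffAverage ℂ W _root_.id (m + 1) x := by
        unfold avg birkhoffAverage birkhoffSum
        congr 1
        refine Finset.sum_congr rfl (fun i hi => ?_)
        rw [zpow_natCast]
        simp only [_root_.id]
        clear h1 hm hev herg h0 hi
        induction i with
        | zero => simp
        | succ i ih =>
          rw [Function.iterate_succ_apply', ← ih, pow_succ']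
          rfl
      rw [h2]
      exact h1.le
  · intro h hK
    obtain ⟨ε, hε, hU⟩ := hK
    obtain ⟨k, hk⟩ := exists_nat_one_div_lt (show (0 : ℝ) < ε / 2 by linarith)
    obtain ⟨m, hm⟩ := h k
    obtain ⟨H, i1, i2, i3, U, x, hx, hQ, hA⟩ := limit_exists k m Q hm
    obtain ⟨G, j1, j2, j3, V, y, hy, hV, hfix⟩ := remove_fixed U x hx m hA
    obtain ⟨z, hz0, hz⟩ := hU G V ⟨y, hy, by
      refine lt_of_le_of_lt (Real.iSup_le (a := 2 * (1 / ((k : ℝ) + 1))) (fun n => ?_)
        (by positivity)) (by linarith)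
      refine (hV n).trans ?_
      exact mul_le_mul_of_nonneg_left (hQ n n.2) (by norm_num)⟩
    exact hz0 (hfix z hz)

lemma AP_congr (k m N : ℕ) (Q Q' : Set ℤ) (h : ∀ n : ℤ, n.natAbs ≤ N → (n ∈ Q ↔ n ∈ Q')) :
    AP.{u} k m N Q ↔ AP.{u} k m N Q' := by
  unfold AP
  constructor
  · rintro ⟨H, i1, i2, i3, U, x, hx, hQ, hA⟩
    exact ⟨H, i1, i2, i3, U, x, hx, fun n hn hN => hQ n ((h n hN).2 hn) hN, hA⟩
  · rintro ⟨H, i1, i2, i3, U, x, hx, hQ, hA⟩
    exact ⟨H, i1, i2, i3, U, x, hx, fun n hn hN => hQ n ((h n hN).1 hn) hN, hA⟩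

lemma isOpen_of_finite_dep (P : Set ℤ → Prop) (N : ℕ)
    (h : ∀ Q Q' : Set ℤ, (∀ n : ℤ, n.natAbs ≤ N → (n ∈ Q ↔ n ∈ Q')) → (P Q ↔ P Q')) :
    IsOpen {χ : ℤ → Bool | P {n | χ n = true}} := by
  rw [isOpen_iff_forall_mem_open]
  intro χ hχ
  refine ⟨⋂ n ∈ Finset.Icc (-(N : ℤ)) N, {χ' : ℤ → Bool | χ' n = χ n}, ?_, ?_, ?_⟩
  · intro χ' hχ'
    simp only [Set.mem_iInter, Set.mem_ofPred_eq] at hχ'
    refine (h {n | χ n = true} {n | χ' n = true} (fun n hn => ?_)).1 hχ
    have : n ∈ Finset.Icc (-(N : ℤ)) N := by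
      rw [Finset.mem_Icc]
      omega
    simp only [Set.mem_ofPred_eq]
    rw [hχ' n this]
  · refine isOpen_biInter_finset (fun n _ => ?_)
    have hc : Continuous (fun χ' : ℤ → Bool => χ' n) := continuous_apply n
    exact hc.isOpen_preimage {χ n} (isOpen_discrete _)
  · simp

lemma isGenerating_iff (Q : Set ℤ) :
    IsGenerating Q ↔ ∃ N : ℕ, IsGenerating {n : ℤ | n ∈ Q ∧ n.natAbs ≤ N} := by
  unfold IsGenerating
  constructor
  · intro h
    have hdir : Directed (· ≤ ·)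
        (fun N : ℕ => AddSubgroup.closure {n : ℤ | n ∈ Q ∧ n.natAbs ≤ N}) := by
      refine Monotone.directed_le (fun a b hab => AddSubgroup.closure_mono ?_)
      intro n hn
      exact ⟨hn.1, hn.2.trans hab⟩
    have hle : (AddSubgroup.closure Q) ≤
        ⨆ N : ℕ, AddSubgroup.closure {n : ℤ | n ∈ Q ∧ n.natAbs ≤ N} := by
      rw [AddSubgroup.closure_le]
      intro n hn
      exact (AddSubgroup.mem_iSup_of_directed hdir).2
        ⟨n.natAbs, AddSubgroup.subset_closure ⟨hn, le_rfl⟩⟩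
    have h1 : (1 : ℤ) ∈ ⨆ N : ℕ, AddSubgroup.closure {n : ℤ | n ∈ Q ∧ n.natAbs ≤ N} := by
      apply hle
      rw [h]
      trivial
    obtain ⟨N, hN⟩ := (AddSubgroup.mem_iSup_of_directed hdir).1 h1
    refine ⟨N, ?_⟩
    rw [AddSubgroup.eq_top_iff']
    intro n
    have := AddSubgroup.zsmul_mem _ hN n
    simpa using this
  · rintro ⟨N, hN⟩
    rw [eq_top_iff, ← hN]
    exact AddSubgroup.closure_mono (fun n hn => hn.1)

/-- **Main theorem.** In the compact space `{0,1}^ℤ` both the family of all Kazhdan subsets of `ℤ`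
and the family of all generating non-Kazhdan subsets of `ℤ` are Borel sets. -/
theorem result :
    @MeasurableSet (ℤ → Bool) (borel (ℤ → Bool)) {χ | IsKazhdan.{u} {n : ℤ | χ n = true}} ∧
    @MeasurableSet (ℤ → Bool) (borel (ℤ → Bool))
      {χ | IsGenerating {n : ℤ | χ n = true} ∧ ¬ IsKazhdan.{u} {n : ℤ | χ n = true}} := by
  let _ : MeasurableSpace (ℤ → Bool) := borel (ℤ → Bool)
  have : BorelSpace (ℤ → Bool) := ⟨rfl⟩
  have h1 : {χ : ℤ → Bool | ¬ IsKazhdan.{u} {n : ℤ | χ n = true}} =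
      ⋂ k : ℕ, ⋃ m : ℕ, ⋂ N : ℕ, {χ : ℤ → Bool | AP.{u} k m N {n : ℤ | χ n = true}} := by
    ext χ
    simp only [Set.mem_iInter, Set.mem_iUnion, Set.mem_ofPred_eq]
    exact not_isKazhdan_iff _
  have h2 : MeasurableSet {χ : ℤ → Bool | ¬ IsKazhdan.{u} {n : ℤ | χ n = true}} := by
    rw [h1]
    refine MeasurableSet.iInter (fun k => MeasurableSet.iUnion (fun m =>
      MeasurableSet.iInter (fun N => ?_)))
    exact (isOpen_of_finite_dep (fun Q => AP.{u} k m N Q) N
      (fun Q Q' h => AP_congr k m N Q Q' h)).measurableSet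
  have h3 : {χ : ℤ → Bool | IsGenerating {n : ℤ | χ n = true}} =
      ⋃ N : ℕ, {χ : ℤ → Bool | IsGenerating {n : ℤ | n ∈ {n : ℤ | χ n = true} ∧ n.natAbs ≤ N}} := by
    ext χ
    simp only [Set.mem_iUnion]
    exact isGenerating_iff _
  have h4 : MeasurableSet {χ : ℤ → Bool | IsGenerating {n : ℤ | χ n = true}} := by
    rw [h3]
    refine MeasurableSet.iUnion (fun N => ?_)
    refine (isOpen_of_finite_dep (fun Q => IsGenerating {n : ℤ | n ∈ Q ∧ n.natAbs ≤ N}) N
      (fun Q Q' h => ?_)).measurableSet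
    have : {n : ℤ | n ∈ Q ∧ n.natAbs ≤ N} = {n : ℤ | n ∈ Q' ∧ n.natAbs ≤ N} := by
      ext n
      constructor
      · rintro ⟨ha, hb⟩
        exact ⟨(h n hb).1 ha, hb⟩
      · rintro ⟨ha, hb⟩
        exact ⟨(h n hb).2 ha, hb⟩
    simp only [this]
  refine ⟨?_, h4.inter h2⟩
  have h5 := h2.compl
  have h6 : {χ : ℤ → Bool | ¬ IsKazhdan.{u} {n : ℤ | χ n = true}}ᶜ =
      {χ : ℤ → Bool | IsKazhdan.{u} {n : ℤ | χ n = true}} := by
    ext χ
    simp
  rwa [h6] at h5

end Pool.Agent.Results.MP_6f1842_lc.KazhdanBorel
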